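import Pool.Agent.Helper36.RN.GoalsG

/-!
# Packet LCI: the Levi-Civita connection, initial data and uniqueness
-/

namespace Pool.Agent.Helper69.RN

open Pool.Agent.Helper47.RFn Pool.Agent.Helper36.RN

section

variable {n : ℕ} {𝒜 : Type} [CommRing 𝒜] [Algebra ℝ 𝒜] (e : Ix n → Derivation ℝ 𝒜 𝒜)
  (n0 : Ix n → 𝒜) (A θ : Ix n → Ix n → 𝒜)

theorem C_anti (a b c : Ix n) : FR.C e n0 A θ a b c = - FR.C e n0 A θ b a c := by
  unfold FR.C
  rw [neg_add, ← Finset.sum_neg_distrib]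
  congr 1
  · refine Finset.sum_congr rfl fun j _ => ?_
    ring
  · ring

theorem Gam_anti (a c d : Ix n) : FR.Gam e n0 A θ a c d = - FR.Gam e n0 A θ a d c := by
  unfold FR.Gam
  rw [← smul_neg, C_anti e n0 A θ c d a, C_anti e n0 A θ d a c, C_anti e n0 A θ a c d]
  congr 1
  rw [C_anti e n0 A θ a d c, C_anti e n0 A θ c a d, C_anti e n0 A θ a c d]
  ring

theorem half_two (x : 𝒜) : (1 / 2 : ℝ) • (x + x) = x := by
  rw [← two_smul ℝ x, smul_smul]
  norm_num

theorem Gam_tor (a b c : Ix n) :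
    FR.Gam e n0 A θ a b c - FR.Gam e n0 A θ b a c = FR.C e n0 A θ a b c := by
  unfold FR.Gam
  rw [← smul_sub]
  have h : FR.C e n0 A θ a b c - FR.C e n0 A θ b c a + FR.C e n0 A θ c a b
      - (FR.C e n0 A θ b a c - FR.C e n0 A θ a c b + FR.C e n0 A θ c b a)
      = FR.C e n0 A θ a b c + FR.C e n0 A θ a b c := by
    rw [C_anti e n0 A θ b a c, C_anti e n0 A θ c a b, C_anti e n0 A θ c b a]
    ring
  rw [h, half_two]

theorem Fd_add (a : Ix n) (f g : 𝒜) : FR.Fd e A a (f + g) = FR.Fd e A a f + FR.Fd e A a g := by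
  unfold FR.Fd
  rw [← Finset.sum_add_distrib]
  exact Finset.sum_congr rfl fun i _ => by rw [map_add]; ring

theorem Fd_mul (a : Ix n) (f g : 𝒜) :
    FR.Fd e A a (f * g) = f * FR.Fd e A a g + g * FR.Fd e A a f := by
  unfold FR.Fd
  rw [Finset.mul_sum, Finset.mul_sum, ← Finset.sum_add_distrib]
  exact Finset.sum_congr rfl fun i _ => by
    rw [Derivation.leibniz, smul_eq_mul, smul_eq_mul]; ring

theorem Fd_sum (a : Ix n) {ι : Type*} (s : Finset ι) (f : ι → 𝒜) :
    FR.Fd e A a (∑ j ∈ s, f j) = ∑ j ∈ s, FR.Fd e A a (f j) := by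
  unfold FR.Fd
  rw [Finset.sum_comm]
  exact Finset.sum_congr rfl fun i _ => by rw [map_sum, Finset.mul_sum]

variable {e n0 A θ} (h : FrameHyp e n0 A θ)

include h

theorem vv_A (i : Ix n) : ∑ a, TC.vv n0 θ a * A a i = n0 i := by
  unfold TC.vv
  simp only [Finset.sum_mul]
  rw [Finset.sum_comm]
  have : ∀ j, ∑ a, θ j a * n0 j * A a i = n0 j * (if j = i then 1 else 0) := by
    intro j
    rw [← h.tA j i, Finset.mul_sum]
    exact Finset.sum_congr rfl fun a _ => by ring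
  rw [Finset.sum_congr rfl fun j _ => this j]
  simp

theorem nf_vv (a : Ix n) : FR.nf n0 A a = TC.vv n0 θ a := h.nA a

theorem th_nf (j : Ix n) : ∑ a, θ j a * FR.nf n0 A a = n0 j := by
  unfold FR.nf
  simp only [Finset.mul_sum]
  rw [Finset.sum_comm]
  have : ∀ i, ∑ a, θ j a * (A a i * n0 i) = n0 i * (if j = i then 1 else 0) := by
    intro i
    rw [← h.tA j i, Finset.mul_sum]
    exact Finset.sum_congr rfl fun a _ => by ring
  rw [Finset.sum_congr rfl fun i _ => this i]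
  simp

theorem vv_Fd (f : 𝒜) : ∑ a, TC.vv n0 θ a * FR.Fd e A a f = 0 := by
  unfold FR.Fd
  simp only [Finset.mul_sum]
  rw [Finset.sum_comm]
  have : ∀ i, ∑ a, TC.vv n0 θ a * (A a i * e i f) = n0 i * e i f := by
    intro i
    have h1 := vv_A h i
    conv_rhs => rw [← h1]
    rw [Finset.sum_mul]
    exact Finset.sum_congr rfl fun a _ => by ring
  rw [Finset.sum_congr rfl fun i _ => this i]
  exact h.ne f

theorem Fd_n0 (c j : Ix n) : FR.Fd e A c (n0 j) = A c j - FR.nf n0 A c * n0 j := by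
  unfold FR.Fd FR.nf
  rw [Finset.sum_mul]
  have : ∀ i, A c i * e i (n0 j) = A c i * (if i = j then 1 else 0) - A c i * n0 i * n0 j := by
    intro i
    rw [h.en]; ring
  rw [Finset.sum_congr rfl fun i _ => this i, Finset.sum_sub_distrib]
  simp

theorem nf_sq : ∑ a, TC.vv n0 θ a * FR.nf n0 A a = 1 := by
  have h1 : ∀ a, TC.vv n0 θ a * FR.nf n0 A a = ∑ i, TC.vv n0 θ a * A a i * n0 i := by
    intro a
    unfold FR.nf
    rw [Finset.mul_sum]
    exact Finset.sum_congr rfl fun i _ => by ring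
  rw [Finset.sum_congr rfl fun a _ => h1 a, Finset.sum_comm]
  have h2 : ∀ i, ∑ a, TC.vv n0 θ a * A a i * n0 i = n0 i ^ 2 := by
    intro i
    rw [← Finset.sum_mul, vv_A h i]; ring
  rw [Finset.sum_congr rfl fun i _ => h2 i]
  exact h.nn

theorem Fd_vvA (c j : Ix n) :
    ∑ a, TC.vv n0 θ a * FR.Fd e A c (A a j) =
      FR.Fd e A c (n0 j) - ∑ a, A a j * FR.Fd e A c (TC.vv n0 θ a) := by
  have h1 : FR.Fd e A c (∑ a, TC.vv n0 θ a * A a j) = FR.Fd e A c (n0 j) := by rw [vv_A h j]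
  rw [← h1, Fd_sum, ← Finset.sum_sub_distrib]
  exact Finset.sum_congr rfl fun a _ => by rw [Fd_mul]; ring

theorem vv_C1 (b c : Ix n) :
    ∑ a, TC.vv n0 θ a * FR.C e n0 A θ a b c = FR.Fd e A b (TC.vv n0 θ c) := by
  have e1 : ∀ a, TC.vv n0 θ a * FR.C e n0 A θ a b c =
      ∑ j, θ j c * (TC.vv n0 θ a * FR.Fd e A a (A b j))
      - ∑ j, θ j c * (TC.vv n0 θ a * FR.Fd e A b (A a j))
      + (TC.vv n0 θ a * FR.nf n0 A a * (if b = c then 1 else 0)
        - FR.nf n0 A b * (TC.vv n0 θ a * (if a = c then 1 else 0))) := by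
    intro a
    unfold FR.C
    rw [mul_add, Finset.mul_sum, ← Finset.sum_sub_distrib]
    congr 1
    · exact Finset.sum_congr rfl fun j _ => by ring
    · ring
  rw [Finset.sum_congr rfl fun a _ => e1 a, Finset.sum_add_distrib, Finset.sum_sub_distrib,
    Finset.sum_sub_distrib, Finset.sum_comm, ← Finset.sum_mul, nf_sq h, ← Finset.mul_sum]
  rw [Finset.sum_comm (f := fun a j => θ j c * (TC.vv n0 θ a * FR.Fd e A b (A a j)))]
  have e2 : ∀ j, ∑ a, θ j c * (TC.vv n0 θ a * FR.Fd e A a (A b j)) = 0 := by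
    intro j
    rw [← Finset.mul_sum, vv_Fd h, mul_zero]
  have e3 : ∀ j, ∑ a, θ j c * (TC.vv n0 θ a * FR.Fd e A b (A a j)) =
      (A b j * θ j c - FR.nf n0 A b * (θ j c * n0 j))
        - ∑ a, (A a j * θ j c) * FR.Fd e A b (TC.vv n0 θ a) := by
    intro j
    rw [← Finset.mul_sum, Fd_vvA h, Fd_n0 h, mul_sub, Finset.mul_sum]
    congr 1
    · ring
    · exact Finset.sum_congr rfl fun a _ => by ring
  rw [Finset.sum_congr rfl fun j _ => e2 j, Finset.sum_congr rfl fun j _ => e3 j,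
    Finset.sum_const_zero, Finset.sum_sub_distrib, Finset.sum_sub_distrib, h.At b c,
    ← Finset.mul_sum]
  rw [Finset.sum_comm]
  have e4 : ∀ a, ∑ j, (A a j * θ j c) * FR.Fd e A b (TC.vv n0 θ a) =
      (if a = c then 1 else 0) * FR.Fd e A b (TC.vv n0 θ a) := by
    intro a
    rw [← Finset.sum_mul, h.At a c]
  rw [Finset.sum_congr rfl fun a _ => e4 a]
  have e5 : ∑ j, θ j c * n0 j = TC.vv n0 θ c := rfl
  rw [e5]
  simp

theorem vv_C2 (p c : Ix n) :
    ∑ a, TC.vv n0 θ a * FR.C e n0 A θ p c a =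
      FR.Fd e A p (FR.nf n0 A c) - FR.Fd e A c (FR.nf n0 A p) := by
  have e1 : ∀ a, TC.vv n0 θ a * FR.C e n0 A θ p c a =
      ∑ j, (FR.Fd e A p (A c j) - FR.Fd e A c (A p j)) * (θ j a * FR.nf n0 A a)
      + (FR.nf n0 A p * (TC.vv n0 θ a * (if c = a then 1 else 0))
        - FR.nf n0 A c * (TC.vv n0 θ a * (if p = a then 1 else 0))) := by
    intro a
    unfold FR.C
    rw [mul_add, Finset.mul_sum]
    congr 1
    · exact Finset.sum_congr rfl fun j _ => by rw [nf_vv h a]; ring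
    · ring
  have e2 : ∀ p c, FR.Fd e A p (FR.nf n0 A c) = ∑ j, FR.Fd e A p (A c j) * n0 j
      + (∑ j, A c j * A p j - FR.nf n0 A p * FR.nf n0 A c) := by
    intro p c
    have : FR.nf n0 A c = ∑ j, A c j * n0 j := rfl
    conv_lhs => rw [this]
    rw [Fd_sum]
    have e3 : ∀ j, FR.Fd e A p (A c j * n0 j) = FR.Fd e A p (A c j) * n0 j
        + (A c j * A p j - FR.nf n0 A p * (A c j * n0 j)) := by
      intro j
      rw [Fd_mul, Fd_n0 h]; ring
    rw [Finset.sum_congr rfl fun j _ => e3 j, Finset.sum_add_distrib, Finset.sum_sub_distrib,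
      ← Finset.mul_sum, ← this]
  rw [Finset.sum_congr rfl fun a _ => e1 a, Finset.sum_add_distrib, Finset.sum_comm,
    Finset.sum_sub_distrib, ← Finset.mul_sum, ← Finset.mul_sum, e2 p c, e2 c p]
  have e4 : ∀ j, ∑ a, (FR.Fd e A p (A c j) - FR.Fd e A c (A p j)) * (θ j a * FR.nf n0 A a) =
      FR.Fd e A p (A c j) * n0 j - FR.Fd e A c (A p j) * n0 j := by
    intro j
    rw [← Finset.mul_sum, th_nf h j]; ring
  rw [Finset.sum_congr rfl fun j _ => e4 j, Finset.sum_sub_distrib]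
  have e5 : ∑ j, A c j * A p j = ∑ j, A p j * A c j :=
    Finset.sum_congr rfl fun j _ => mul_comm _ _
  rw [e5]
  simp only [mul_ite, mul_one, mul_zero, Finset.sum_ite_eq, Finset.mem_univ, if_true]
  rw [← nf_vv h, ← nf_vv h]
  ring

theorem Ga_LC (a c d : Ix n) :
    TC.Ga A (wLC e n0 A θ) a c d = FR.Gam e n0 A θ a c d := by
  unfold TC.Ga wLC
  simp only [Finset.mul_sum]
  rw [Finset.sum_comm]
  have : ∀ b, ∑ i, A a i * (θ i b * FR.Gam e n0 A θ b c d) =
      (if a = b then 1 else 0) * FR.Gam e n0 A θ b c d := by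
    intro b
    rw [← h.At a b, Finset.sum_mul]
    exact Finset.sum_congr rfl fun i _ => by ring
  rw [Finset.sum_congr rfl fun b _ => this b]
  simp

theorem wr_LC (c d : Ix n) : TC.wr n0 (wLC e n0 A θ) c d = 0 := by
  have e1 : TC.wr n0 (wLC e n0 A θ) c d = ∑ a, TC.vv n0 θ a * FR.Gam e n0 A θ a c d := by
    unfold TC.wr wLC TC.vv
    simp only [Finset.mul_sum, Finset.sum_mul]
    rw [Finset.sum_comm]
    refine Finset.sum_congr rfl fun a _ => Finset.sum_congr rfl fun i _ => by ring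
  have e2 : ∀ a, TC.vv n0 θ a * FR.Gam e n0 A θ a c d = (1 / 2 : ℝ) •
      (TC.vv n0 θ a * FR.C e n0 A θ a c d - TC.vv n0 θ a * FR.C e n0 A θ c d a
        - TC.vv n0 θ a * FR.C e n0 A θ a d c) := by
    intro a
    unfold FR.Gam
    rw [mul_smul_comm, C_anti e n0 A θ d a c]
    congr 1
    ring
  rw [e1, Finset.sum_congr rfl fun a _ => e2 a, ← Finset.smul_sum, Finset.sum_sub_distrib,
    Finset.sum_sub_distrib, vv_C1 h, vv_C2 h, vv_C1 h]
  have e3 : FR.nf n0 A = TC.vv n0 θ := funext fun a => nf_vv h a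
  rw [e3]
  have e4 : FR.Fd e A c (TC.vv n0 θ d) - (FR.Fd e A c (TC.vv n0 θ d) - FR.Fd e A d (TC.vv n0 θ c))
      - FR.Fd e A d (TC.vv n0 θ c) = 0 := by ring
  rw [e4, smul_zero]

end

theorem lci : G_LCI := by
  intro hANT hFLV n 𝒜 _ _ e n0 A θ
  constructor
  · intro h
    have hCH : CH A θ (wLC e n0 A θ) := by
      refine ⟨h.At, h.tA, fun i c d => ?_⟩
      unfold wLC
      rw [← Finset.sum_neg_distrib]
      exact Finset.sum_congr rfl fun a _ => by rw [Gam_anti e n0 A θ a c d]; ring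
    refine ⟨hCH, fun a b c => ?_, fun c d => wr_LC h c d⟩
    rw [(hFLV n 𝒜 e n0 A θ _ hCH).1, Ga_LC h, Ga_LC h, Gam_tor, sub_self]
  · intro w hCH hta
    obtain ⟨f1, f2, -⟩ := hFLV n 𝒜 e n0 A θ w hCH
    have hanti := hANT n 𝒜 e n0 A θ w hCH.anti
    have hGa := hanti.2.2.1
    have hK := hanti.2.2.2.2.1
    have hC : ∀ a b c, FR.C e n0 A θ a b c = TC.Ga A w a b c - TC.Ga A w b a c := by
      intro a b c
      have h1 := f1 a b c
      rw [hta] at h1
      exact (sub_eq_zero.1 h1.symm).symm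
    have hGam : ∀ a b c, FR.Gam e n0 A θ a b c = TC.Ga A w a b c := by
      intro a b c
      unfold FR.Gam
      rw [hC, hC, hC]
      have h2 : TC.Ga A w a b c - TC.Ga A w b a c - (TC.Ga A w b c a - TC.Ga A w c b a)
          + (TC.Ga A w c a b - TC.Ga A w a c b) = TC.Ga A w a b c + TC.Ga A w a b c := by
        rw [hGa b c a, hGa c b a, hGa a c b]
        ring
      rw [h2, half_two]
    have hKK : ∀ a b c d, FR.K e n0 A θ a b c d = TC.K e n0 A w a b c d := by
      intro a b c d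
      rw [f2]
      unfold FR.K
      simp only [hGam]
    refine ⟨hGam, hKK, fun a c => ?_⟩
    unfold FR.Rc FR.R TC.Sr
    refine Finset.sum_congr rfl fun b _ => ?_
    rw [hKK, hK a b c b, neg_neg]

end Pool.Agent.Helper69.RN
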